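import Pool.Agent.N20.AE.Stm
import Pool.Agent.R674.KB.Blk
import Pool.Agent.Y930.NV.Cen
import Pool.Agent.Y63.AWC.Ch

/-!
# AE/HT, NP, UP: defects of characters, normal p-subgroups, induced blocks
-/

set_option autoImplicit false
set_option linter.unusedSectionVars false

open scoped Classical

noncomputable section

namespace Pool.Agent.N701.AE

open Pool.Agent.Y63.NV
open Pool.Agent.Y930.NV
open Pool.Agent.N20.AE
open Pool.Agent.Y63.AWC (IsIrreducibleCharacter)
open Pool.Agent.N20.DI (HasDef)

theorem card_class {G : Type} [Group G] [Finite G] (x : G) :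
    Nat.card (ConjClasses.mk x).carrier * Nat.card (Subgroup.centralizer {x}) = Nat.card G := by
  rw [Subgroup.nat_card_centralizer_nat_card_stabilizer, ← ConjAct.orbit_eq_carrier_conjClasses]
  have h := Nat.card_congr (MulAction.orbitProdStabilizerEquivGroup (ConjAct G) x)
  rw [Nat.card_prod] at h
  exact h

theorem isClassFun_conj {F : Type} [Field F] {G : Type} [Group G] (x : G) :
    IsClassFun (fun y : G => if IsConj x y then (1 : F) else 0) := by
  intro g y
  have h1 : IsConj y (g * y * g⁻¹) := isConj_iff.2 ⟨g, rfl⟩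
  have h2 : IsConj x (g * y * g⁻¹) ↔ IsConj x y := ⟨fun h => h.trans h1.symm, fun h => h.trans h1⟩
  simp only [h2]

theorem R_class {H : Type} [Group H]
    [Fintype H] {χ : H → ℂ} (hχ : IsIrreducibleCharacter χ) (x : H) :
    om χ (ind ℂ (ConjClasses.mk x)) =
      (Nat.card (ConjClasses.mk x).carrier : ℂ) * χ x / χ 1 := by
  rw [om_ind χ (irr_Cf hχ), Cf_out (irr_Cf hχ) rfl]

theorem classValue_red {F : Type} [Field F] (red : integralClosure ℤ ℂ →+* F) {H : Type} [Group H]
    [Fintype H] {χ : H → ℂ} (hχ : IsIrreducibleCharacter χ) (x : H) :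
    classValue (centralValue red χ) x =
      redC red ((Nat.card (ConjClasses.mk x).carrier : ℂ) * χ x / χ 1) := by
  unfold classValue
  rw [centralValue_eq red hχ, Finset.sum_eq_single (ConjClasses.mk x)]
  · have h1 : IsConj x (ConjClasses.mk x).out := by
      rw [← ConjClasses.mk_eq_mk_iff_isConj, mk_out]
    rw [if_pos h1, one_mul]
    unfold R
    rw [ind_cast, R_class hχ]
  · intro C _ hC
    rw [if_neg, zero_mul]
    intro h
    apply hC
    rw [← mk_out C, ConjClasses.mk_eq_mk_iff_isConj]
    exact h.symm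
  · intro h
    exact absurd (Finset.mem_univ _) h

theorem HT : S_HT := by
  intro p _ F _ _ _ red H _ _ B hB χ hχ hBχ d hd D hD e he
  have : Fintype H := Fintype.ofFinite H
  obtain ⟨n, hn1, hn2⟩ := hd
  obtain ⟨x, hx, hmin, hDx, hDp, hDc⟩ := hD
  have hp := (Fact.out : p.Prime)
  have hv : (Nat.card D).factorization p = e := by
    rw [he, hp.factorization_pow]
    simp
  rw [hv] at hDc
  by_contra hlt
  push Not at hlt
  have hn0 : n ≠ 0 := by
    rintro rfl
    exact irr_one_ne hχ (by rw [hn1]; simp)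
  have hcc := card_class x
  set N := Nat.card (ConjClasses.mk x).carrier with hN
  have hN0 : N ≠ 0 := by
    intro h
    rw [h, zero_mul] at hcc
    exact (Nat.card_pos (α := H)).ne' hcc.symm
  have hC0 : Nat.card (Subgroup.centralizer {x}) ≠ 0 := Nat.card_pos.ne'
  have hfac : N.factorization p + e = (Nat.card H).factorization p := by
    rw [← hcc, Nat.factorization_mul hN0 hC0, Finsupp.add_apply, ← hDc]
  have hlt2 : n.factorization p + 1 ≤ N.factorization p := by omega
  obtain ⟨N', hN'⟩ : p ^ (n.factorization p + 1) ∣ N :=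
    (hp.pow_dvd_iff_le_factorization hN0).2 hlt2
  obtain ⟨m, hm⟩ : ∃ m, m = n / p ^ n.factorization p := ⟨_, rfl⟩
  have hnm : p ^ n.factorization p * m = n := by
    rw [hm]
    exact Nat.ordProj_mul_ordCompl_eq_self n p
  have hmp : ¬ p ∣ m := by
    rw [hm]
    exact Nat.not_dvd_ordCompl hp hn0
  have hint : IsIntegral ℤ ((N : ℂ) * χ x / χ 1) := by
    have h := om_int hχ (Cf_ind ℤ (ConjClasses.mk x))
    rw [ind_cast, R_class hχ] at h
    exact h
  have hintx : IsIntegral ℤ (χ x) := Pool.Agent.Y63.AWC.isIntegral_char hχ x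
  have hnC : (n : ℂ) ≠ 0 := by exact_mod_cast hn0
  have key : ((m : ℤ) : ℂ) * ((N : ℂ) * χ x / χ 1) = ((p : ℤ) : ℂ) * (((N' : ℤ) : ℂ) * χ x) := by
    rw [hn1]
    have e1 : (n : ℂ) = (p : ℂ) ^ n.factorization p * m := by exact_mod_cast hnm.symm
    have e2 : (N : ℂ) = (p : ℂ) ^ (n.factorization p + 1) * N' := by exact_mod_cast hN'
    rw [mul_div_assoc', div_eq_iff hnC, e2]
    push_cast
    rw [pow_succ]
    calc (m : ℂ) * ((p : ℂ) ^ n.factorization p * p * N' * χ x)
        = (p : ℂ) * (N' * χ x) * ((p : ℂ) ^ n.factorization p * m) := by ring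
      _ = (p : ℂ) * (N' * χ x) * n := by rw [← e1]
  have h0 : redC red ((N : ℂ) * χ x / χ 1) = 0 := by
    have h1 := congrArg (redC red) key
    rw [redC_mul red (int_intCast _) hint, redC_intCast,
      redC_mul red (int_intCast _) ((int_intCast _).mul hintx), redC_intCast] at h1
    have h2 : (((p : ℤ) : F)) = 0 := by
      rw [Int.cast_natCast]
      exact CharP.cast_eq_zero F p
    rw [h2, zero_mul, Int.cast_natCast] at h1
    rcases mul_eq_zero.1 h1 with h3 | h3
    · exact absurd ((CharP.cast_eq_zero_iff F p m).1 h3) hmp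
    · exact h3
  apply hx
  have h4 : classValue B x = classValue (centralValue red χ) x :=
    (hBχ _ (isClassFun_conj x)).symm
  rw [h4, classValue_red red hχ x]
  exact h0

theorem NP : S_NP := by
  intro p _ F _ _ _ H _ _ B hB P hPn hP D hD
  obtain ⟨x, hx, hmin, hDx, hDp, hDc⟩ := hD
  have hxP : x ∈ Subgroup.centralizer (P : Set H) := by
    by_contra hcon
    apply hx
    unfold classValue
    rw [Pool.Agent.R674.KB.blk_cut hP hB (isClassFun_conj x)]
    have hcen : (Subgroup.centralizer (P : Set H)).Normal := inferInstance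
    have h1 : cut (fun y : H => if IsConj x y then (1 : F) else 0)
        (Subgroup.centralizer (P : Set H)) = (0 : F) • (0 : H → F) := by
      funext y
      have e0 : ((0 : F) • (0 : H → F)) y = 0 := by simp
      rw [e0]
      unfold cut
      by_cases h2 : y ∈ Subgroup.centralizer (P : Set H)
      · rw [if_pos h2]
        by_cases h3 : IsConj x y
        · exfalso
          apply hcon
          obtain ⟨c, hc⟩ := isConj_iff.1 h3
          have h4 := hcen.conj_mem y h2 c⁻¹
          rw [← hc] at h4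
          have h5 : c⁻¹ * (c * x * c⁻¹) * c⁻¹⁻¹ = x := by group
          rwa [h5] at h4
        · exact if_neg h3
      · rw [if_neg h2]
    rw [h1, hB.smul 0 0 (fun _ _ => rfl), zero_mul]
  have hPx : P ≤ Subgroup.centralizer {x} := by
    intro y hy
    rw [Subgroup.mem_centralizer_iff]
    intro z hz
    rw [Set.mem_singleton_iff.1 hz]
    exact (Subgroup.mem_centralizer_iff.1 hxP y hy).symm
  have hsup : IsPGroup p (P ⊔ D : Subgroup H) := IsPGroup.to_sup_of_normal_left hP hDp
  have hle : P ⊔ D ≤ Subgroup.centralizer {x} := sup_le hPx hDx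
  have hp := (Fact.out : p.Prime)
  obtain ⟨a, ha⟩ := IsPGroup.iff_card.1 hsup
  obtain ⟨b, hb⟩ := IsPGroup.iff_card.1 hDp
  have hdvd : Nat.card (P ⊔ D : Subgroup H) ∣ Nat.card (Subgroup.centralizer {x}) :=
    Subgroup.card_dvd_of_le hle
  have hab : a ≤ b := by
    rw [ha, hp.pow_dvd_iff_le_factorization Nat.card_pos.ne', ← hDc, hb, hp.factorization_pow] at hdvd
    simpa using hdvd
  have heq : D = P ⊔ D := by
    refine Subgroup.eq_of_le_of_card_ge le_sup_right ?_
    rw [ha, hb]
    exact Nat.pow_le_pow_right hp.pos hab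
  rw [heq]
  exact le_sup_left

theorem UP : S_UP := by
  intro p _ F _ _ _ red H _ _ Q hQ χ hχ
  exact ⟨cvh F red _ χ hχ, Pool.Agent.R674.KB.blk_up hQ rfl (cvh F red _ χ hχ)⟩

end Pool.Agent.N701.AE
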