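import Pool.Agent.N347.LA.Defs

set_option autoImplicit false

/-! # Project LA (helper347), LA/PAR (helper701): parity of the edge-ends towards a component -/

namespace Pool.Agent.N701.LAPARITY

open Finset Pool.Agent.N347.LA

theorem dsum_even {A : Type} [DecidableEq A] (m : A → A → ℕ) (hs : ∀ u v, m u v = m v u)
    (he : ∀ u, Even (m u u)) (S : Finset A) : Even (∑ u ∈ S, ∑ v ∈ S, m u v) := by
  induction S using Finset.induction_on with
  | empty => simp
  | insert a S ha ih =>
    have h1 : ∑ u ∈ insert a S, ∑ v ∈ insert a S, m u v =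
        m a a + (∑ v ∈ S, m a v + ∑ v ∈ S, m a v) + ∑ u ∈ S, ∑ v ∈ S, m u v := by
      rw [Finset.sum_insert ha, Finset.sum_insert ha]
      have h2 : ∀ u ∈ S, ∑ v ∈ insert a S, m u v = m a u + ∑ v ∈ S, m u v := by
        intro u _
        rw [Finset.sum_insert ha, hs u a]
      rw [Finset.sum_congr rfl h2, Finset.sum_add_distrib]
      ring
    rw [h1]
    exact ((he a).add ⟨_, rfl⟩).add ih

open Classical in
theorem closed_even {A : Type} [Fintype A] (m : A → A → ℕ) (z : A → ℕ) (ω : A → ℕ)
    (hs : ∀ u v, m u v = m v u) (he : ∀ u, Even (m u u)) (hd : ∀ u, ∑ v, m u v + z u = 2 * ω u)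
    (a : A) (S : Finset A) (ha : a ∉ S) (hz : ∀ u ∈ S, z u = 0)
    (hcl : ∀ u ∈ S, ∀ v, v ≠ a → 0 < m u v → v ∈ S) : Even (∑ u ∈ S, m a u) := by
  have h1 : ∀ u ∈ S, m a u + ∑ v ∈ S, m u v = 2 * ω u := by
    intro u hu
    rw [← hd u, hz u hu, add_zero]
    have h2 : ∑ v, m u v = ∑ v ∈ insert a S, m u v := by
      refine (Finset.sum_subset (Finset.subset_univ _) fun v _ hv => ?_).symm
      rw [Finset.mem_insert, not_or] at hv
      by_contra h3
      exact hv.2 (hcl u hu v hv.1 (Nat.pos_of_ne_zero h3))
    rw [h2, Finset.sum_insert ha, hs u a]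
  have h2 : ∑ u ∈ S, m a u + ∑ u ∈ S, ∑ v ∈ S, m u v = 2 * ∑ u ∈ S, ω u := by
    rw [← Finset.sum_add_distrib, Finset.sum_congr rfl h1, Finset.mul_sum]
  have h3 : Even (∑ u ∈ S, m a u + ∑ u ∈ S, ∑ v ∈ S, m u v) := by
    rw [h2]
    exact even_two_mul _
  exact (Nat.even_add.1 h3).2 (dsum_even m hs he S)

theorem adj_ss {A : Type} {m : A → A → ℕ} {z : A → ℕ} {a u v : A} (hu : u ≠ a) (hv : v ≠ a)
    (huv : u ≠ v) (h : 0 < m u v) : (Gr m z a).Adj (some u) (some v) := by
  unfold Gr
  rw [SimpleGraph.fromRel_adj]
  exact ⟨fun h1 => huv (Option.some.inj h1), Or.inl (Or.inl ⟨u, v, rfl, rfl, hu, hv, h⟩)⟩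

theorem adj_sn {A : Type} {m : A → A → ℕ} {z : A → ℕ} {a u : A} (hu : u ≠ a)
    (h : 0 < z u) : (Gr m z a).Adj (some u) none := by
  unfold Gr
  rw [SimpleGraph.fromRel_adj]
  exact ⟨Option.some_ne_none u, Or.inl (Or.inr ⟨u, rfl, rfl, hu, h⟩)⟩

theorem not_adj {A : Type} {m : A → A → ℕ} {z : A → ℕ} {a : A} (y : Option A) :
    ¬ (Gr m z a).Adj (some a) y := by
  unfold Gr
  rw [SimpleGraph.fromRel_adj]
  rintro ⟨-, (⟨u, v, h1, -, h2, -⟩ | ⟨u, h1, -, h2, -⟩) | (⟨u, v, -, h1, -, h2, -⟩ | ⟨u, -, h1, -⟩)⟩
  · exact h2 (Option.some.inj h1).symm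
  · exact h2 (Option.some.inj h1).symm
  · exact h2 (Option.some.inj h1).symm
  · exact Option.some_ne_none a h1

theorem eq_of_reachable {A : Type} {m : A → A → ℕ} {z : A → ℕ} {a : A} {y : Option A}
    (h : (Gr m z a).connectedComponentMk y = (Gr m z a).connectedComponentMk (some a)) :
    y = some a := by
  obtain ⟨w⟩ := (SimpleGraph.ConnectedComponent.eq.1 h).symm
  cases w with
  | nil => rfl
  | cons hadj _ => exact absurd hadj (not_adj _)

open Classical in
/-- LA/PAR -/
theorem parity {A : Type} [Fintype A] (m : A → A → ℕ) (z : A → ℕ) (ω : A → ℕ)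
    (hs : ∀ u v, m u v = m v u) (he : ∀ u, Even (m u u)) (hd : ∀ u, ∑ v, m u v + z u = 2 * ω u)
    (a : A) (C : (Gr m z a).ConnectedComponent) :
    Even (∑ x ∈ univ.filter (fun x => (Gr m z a).connectedComponentMk x = C), ends m z a x) := by
  have hsplit : ∑ x ∈ univ.filter (fun x => (Gr m z a).connectedComponentMk x = C),
      ends m z a x = (if (Gr m z a).connectedComponentMk none = C then z a else 0) +
      ∑ u ∈ univ.filter (fun u => (Gr m z a).connectedComponentMk (some u) = C), m a u := by
    rw [Finset.sum_filter, Fintype.sum_option, Finset.sum_filter]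
    rfl
  rw [hsplit]
  by_cases hCa : (Gr m z a).connectedComponentMk (some a) = C
  · have h1 : ¬ (Gr m z a).connectedComponentMk none = C := by
      intro h
      rw [← hCa] at h
      exact Option.some_ne_none a (eq_of_reachable h).symm
    have h2 : univ.filter (fun u => (Gr m z a).connectedComponentMk (some u) = C) = {a} := by
      ext u
      rw [Finset.mem_filter, Finset.mem_singleton]
      constructor
      · rintro ⟨-, h⟩
        rw [← hCa] at h
        exact Option.some.inj (eq_of_reachable h)
      · rintro rfl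
        exact ⟨Finset.mem_univ _, hCa⟩
    rw [if_neg h1, h2, Finset.sum_singleton, zero_add]
    exact he a
  · by_cases hCn : (Gr m z a).connectedComponentMk none = C
    · rw [if_pos hCn]
      have h1 : Even (∑ u ∈ univ.filter (fun u => u ≠ a ∧
          ¬ (Gr m z a).connectedComponentMk (some u) = C), m a u) := by
        refine closed_even m z ω hs he hd a _ ?_ ?_ ?_
        · intro h
          exact (Finset.mem_filter.1 h).2.1 rfl
        · intro u hu
          obtain ⟨-, h2, h3⟩ := Finset.mem_filter.1 hu
          by_contra h4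
          apply h3
          rw [← hCn]
          exact SimpleGraph.ConnectedComponent.eq.2 (adj_sn h2 (Nat.pos_of_ne_zero h4)).reachable
        · intro u hu v hv h2
          obtain ⟨-, h3, h4⟩ := Finset.mem_filter.1 hu
          by_cases huv : u = v
          · rw [← huv]
            exact hu
          · refine Finset.mem_filter.2 ⟨Finset.mem_univ _, hv, fun h5 => h4 ?_⟩
            rw [← h5]
            exact SimpleGraph.ConnectedComponent.eq.2 (adj_ss h3 hv huv h2).reachable
      have h2 : ∑ u, m a u = ∑ u ∈ univ.filter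
          (fun u => (Gr m z a).connectedComponentMk (some u) = C), m a u +
          (m a a + ∑ u ∈ univ.filter (fun u => u ≠ a ∧
            ¬ (Gr m z a).connectedComponentMk (some u) = C), m a u) := by
        rw [← Finset.sum_filter_add_sum_filter_not univ
          (fun u => (Gr m z a).connectedComponentMk (some u) = C)]
        congr 1
        have h3 : univ.filter (fun u => ¬ (Gr m z a).connectedComponentMk (some u) = C) =
            insert a (univ.filter (fun u => u ≠ a ∧
              ¬ (Gr m z a).connectedComponentMk (some u) = C)) := by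
          ext u
          rw [Finset.mem_insert, Finset.mem_filter, Finset.mem_filter]
          constructor
          · rintro ⟨-, h⟩
            by_cases hua : u = a
            · exact Or.inl hua
            · exact Or.inr ⟨Finset.mem_univ _, hua, h⟩
          · rintro (rfl | ⟨-, -, h⟩)
            · exact ⟨Finset.mem_univ _, hCa⟩
            · exact ⟨Finset.mem_univ _, h⟩
        rw [h3, Finset.sum_insert]
        intro h
        exact (Finset.mem_filter.1 h).2.1 rfl
      have h3 := hd a
      rw [h2] at h3
      have h4 := he a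
      rw [Nat.even_iff] at h1 h4 ⊢
      omega
    · rw [if_neg hCn, zero_add]
      refine closed_even m z ω hs he hd a _ ?_ ?_ ?_
      · intro h
        exact hCa (Finset.mem_filter.1 h).2
      · intro u hu
        obtain ⟨-, h3⟩ := Finset.mem_filter.1 hu
        have h2 : u ≠ a := by
          rintro rfl
          exact hCa h3
        by_contra h4
        apply hCn
        rw [← h3]
        exact SimpleGraph.ConnectedComponent.eq.2
          (adj_sn h2 (Nat.pos_of_ne_zero h4)).reachable.symm
      · intro u hu v hv h2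
        obtain ⟨-, h4⟩ := Finset.mem_filter.1 hu
        have h3 : u ≠ a := by
          rintro rfl
          exact hCa h4
        by_cases huv : u = v
        · rw [← huv]
          exact hu
        · refine Finset.mem_filter.2 ⟨Finset.mem_univ _, ?_⟩
          rw [← h4]
          exact SimpleGraph.ConnectedComponent.eq.2 (adj_ss h3 hv huv h2).reachable.symm

end Pool.Agent.N701.LAPARITY
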