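import Pool.Agent.N585.WC.Defs

/-! # Project WC (helper585), task 4 (helper701): weights -/

set_option autoImplicit false

namespace Pool.Agent.N701.WCwt

open Cardinal Set TopologicalSpace Pool.Agent.N585.WC

theorem weight_nonempty (X : Type) [TopologicalSpace X] :
    {κ | ∃ B : Set (Set X), IsTopologicalBasis B ∧ #B = κ}.Nonempty :=
  ⟨_, _, isTopologicalBasis_opens, rfl⟩

theorem exists_base (X : Type) [TopologicalSpace X] :
    ∃ B : Set (Set X), IsTopologicalBasis B ∧ #B = weight X :=
  csInf_mem (weight_nonempty X)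

theorem weight_le {X : Type} [TopologicalSpace X] {B : Set (Set X)} (hB : IsTopologicalBasis B) :
    weight X ≤ #B :=
  csInf_le' ⟨B, hB, rfl⟩

theorem weight_inducing {X Y : Type} [TopologicalSpace X] [TopologicalSpace Y] {f : X → Y}
    (hf : Topology.IsInducing f) : weight X ≤ weight Y := by
  obtain ⟨B, hB, h⟩ := exists_base Y
  rw [← h]
  exact (weight_le (hB.isInducing hf)).trans mk_image_le

/-- (WC/4) -/
theorem stmWt : StmWt := by
  refine ⟨?_, ?_, ?_, ?_⟩
  · intro J hJ _ K _ _ _ O hO hfin hbase
    let g : (Σ F : Finset J, K ⧸ O F) → Set K := fun p =>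
      {x | (QuotientAddGroup.mk x : K ⧸ O p.1) = p.2}
    have hB : IsTopologicalBasis (range g) := by
      refine isTopologicalBasis_of_isOpen_of_nhds ?_ ?_
      · rintro _ ⟨⟨F, q⟩, rfl⟩
        induction q using QuotientAddGroup.induction_on with
        | H y =>
          have h1 : g ⟨F, (QuotientAddGroup.mk y : K ⧸ O F)⟩ =
              (fun x : K => -x + y) ⁻¹' (O F : Set K) := by
            ext x
            exact QuotientAddGroup.eq
          rw [h1]
          exact (hO F).preimage (by fun_prop)
      · intro a W ha hW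
        have h2 : IsOpen ((fun z : K => a + z) ⁻¹' W) := hW.preimage (by fun_prop)
        obtain ⟨F, hF⟩ := hbase _ h2 (by show a + 0 ∈ W; rwa [add_zero])
        refine ⟨_, ⟨⟨F, (QuotientAddGroup.mk a : K ⧸ O F)⟩, rfl⟩, rfl, ?_⟩
        intro x hx
        have h3 : -x + a ∈ O F := QuotientAddGroup.eq.1 hx
        have h4 := (O F).neg_mem h3
        have h5 : a + -(-x + a) ∈ W := hF h4
        rwa [neg_add_rev, neg_neg, add_neg_cancel_left] at h5
    refine (weight_le hB).trans (mk_range_le.trans ?_)
    rw [mk_sigma]
    have h6 : Cardinal.sum (fun F : Finset J => #(K ⧸ O F)) ≤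
        Cardinal.sum (fun _ : Finset J => (ℵ₀ : Cardinal.{0})) := by
      refine Cardinal.sum_le_sum _ _ fun F => ?_
      have := hfin F
      have h7 : Finite (K ⧸ O F) := AddSubgroup.finite_quotient_of_finiteIndex
      exact (lt_aleph0_of_finite _).le
    refine h6.trans ?_
    rw [sum_const']
    refine mul_le_of_le (aleph0_le_aleph 1) ?_ (aleph0_le_aleph 1)
    rw [mk_finset_of_infinite]
    exact hJ
  · intro X _ C
    exact weight_inducing Topology.IsInducing.subtypeVal
  · intro X _
    exact le_antisymm (weight_inducing Topology.IsInducing.subtypeVal)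
      (weight_inducing (Homeomorph.Set.univ X).symm.isInducing)
  · intro X _ h
    obtain ⟨B, hB, h1⟩ := exists_base X
    rw [← h1, ← countable_iff_lt_aleph_one] at h
    exact hB.secondCountableTopology h

end Pool.Agent.N701.WCwt
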