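import Pool.Agent.N604.MW.Stm3

set_option autoImplicit false

/-!
Task DEXCL of project PD (helper604): two generic exponential sums are not both large (helper701).
-/

namespace Pool.Agent.N701.PD

open Pool.Agent.N604.MW Filter

/-- the algebra behind the lemma -/
lemma core {a a' κ x P D β : ℝ} (ha : 0 < a) (ha' : 0 < a') (hκ : 0 < κ) (hx : 1 ≤ x)
    (hdio : ∀ (A B C : ℤ) (H : ℝ), (A ≠ 0 ∨ B ≠ 0 ∨ C ≠ 0) →
      |(A : ℝ)| ≤ H → |(B : ℝ)| ≤ H → |(C : ℝ)| ≤ H →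
      κ / H ^ 4 ≤ |A * a + B * a' + C * (a * a')|)
    (hP : 1 ≤ P) (hD0 : 0 < D) (hPD : P ^ 14 * D ≤ x⁻¹)
    (hx1 : (2 * a + 2 * a' + 2) ^ 4 * (a + a') / κ < x) (hx2 : 2 / a < x)
    (hβ : |β| ≤ 1 / 2) {h h' a₁ a₁' : ℤ} {q q' : ℕ} (hq : 1 ≤ q) (hq' : 1 ≤ q')
    (hqP : (q : ℝ) ≤ P) (hqP' : (q' : ℝ) ≤ P) (hhP : |(h : ℝ)| ≤ P) (hhP' : |(h' : ℝ)| ≤ P)
    (e1 : |q * (a * (β + h)) - a₁| ≤ P * D) (e2 : |q' * (a' * (β + h')) - a₁'| ≤ P * D) :
    |β| * a ≤ P * D := by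
  have hx0 : 0 < x := by linarith
  have hP0 : 0 < P := by linarith
  have hqr : (1 : ℝ) ≤ q := by exact_mod_cast hq
  have hqr' : (1 : ℝ) ≤ q' := by exact_mod_cast hq'
  have hPD1 : P * D ≤ x⁻¹ := by
    refine le_trans ?_ hPD
    have : P ≤ P ^ 14 := le_self_pow₀ hP (by norm_num)
    nlinarith
  have hxi : x⁻¹ ≤ 1 := inv_le_one_of_one_le₀ hx
  have hP2 : 1 ≤ P ^ 2 := one_le_pow₀ hP
  -- bounds for the numerators
  have hbd : ∀ {b : ℝ} {c : ℤ} {g : ℤ} {r : ℕ}, 0 < b → (r : ℝ) ≤ P → |(g : ℝ)| ≤ P →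
      |r * (b * (β + g)) - c| ≤ P * D → |(c : ℝ)| ≤ (2 * b + 1) * P ^ 2 := by
    intro b c g r hb hr hg he
    have h1 : |(c : ℝ)| ≤ |r * (b * (β + g))| + |r * (b * (β + g)) - c| := by
      have := abs_sub_abs_le_abs_sub (c : ℝ) (r * (b * (β + g)))
      rw [abs_sub_comm (c : ℝ)] at this
      linarith
    have h2 : |(r : ℝ) * (b * (β + g))| ≤ P * (b * (2 * P)) := by
      rw [abs_mul, abs_mul, abs_of_pos hb, abs_of_nonneg (Nat.cast_nonneg r)]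
      have h3 : |β + g| ≤ 2 * P := by
        have := abs_add_le β g
        linarith
      gcongr
    nlinarith
  have hb1 := hbd ha hqP hhP e1
  have hb2 := hbd ha' hqP' hhP' e2
  set C : ℝ := 2 * a + 2 * a' + 2 with hC
  have hC2 : 2 ≤ C := by rw [hC]; linarith
  -- the linear form
  have hform : |((q * a₁' : ℤ) : ℝ) * a + ((-(q' * a₁) : ℤ) : ℝ) * a' +
      ((q * q' * (h - h') : ℤ) : ℝ) * (a * a')| ≤ (a + a') * (P ^ 2 * D) := by
    have e : ((q * a₁' : ℤ) : ℝ) * a + ((-(q' * a₁) : ℤ) : ℝ) * a' +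
        ((q * q' * (h - h') : ℤ) : ℝ) * (a * a') =
        q' * a' * (q * (a * (β + h)) - a₁) - q * a * (q' * (a' * (β + h')) - a₁') := by
      push_cast
      ring
    rw [e]
    refine (abs_sub _ _).trans ?_
    rw [abs_mul, abs_mul (q * a : ℝ), abs_of_nonneg (by positivity : (0 : ℝ) ≤ q' * a'),
      abs_of_nonneg (by positivity : (0 : ℝ) ≤ q * a)]
    have h1 : (q' : ℝ) * a' * |q * (a * (β + h)) - a₁| ≤ P * a' * (P * D) := by gcongr
    have h2 : (q : ℝ) * a * |q' * (a' * (β + h')) - a₁'| ≤ P * a * (P * D) := by gcongr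
    nlinarith
  have hH : 0 < C * P ^ 3 := by positivity
  have hzero : (q * a₁' : ℤ) = 0 ∧ (-(q' * a₁) : ℤ) = 0 ∧ (q * q' * (h - h') : ℤ) = 0 := by
    by_contra hne
    have hne' : (q * a₁' : ℤ) ≠ 0 ∨ (-(q' * a₁) : ℤ) ≠ 0 ∨ (q * q' * (h - h') : ℤ) ≠ 0 := by
      by_contra hcon
      push Not at hcon
      exact hne hcon
    have b1 : |((q * a₁' : ℤ) : ℝ)| ≤ C * P ^ 3 := by
      push_cast
      rw [abs_mul, abs_of_nonneg (Nat.cast_nonneg q)]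
      calc (q : ℝ) * |(a₁' : ℝ)| ≤ P * ((2 * a' + 1) * P ^ 2) := by gcongr
        _ = (2 * a' + 1) * P ^ 3 := by ring
        _ ≤ C * P ^ 3 := by
            gcongr
            rw [hC]; linarith
    have b2 : |((-(q' * a₁) : ℤ) : ℝ)| ≤ C * P ^ 3 := by
      push_cast
      rw [abs_neg, abs_mul, abs_of_nonneg (Nat.cast_nonneg q')]
      calc (q' : ℝ) * |(a₁ : ℝ)| ≤ P * ((2 * a + 1) * P ^ 2) := by gcongr
        _ = (2 * a + 1) * P ^ 3 := by ring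
        _ ≤ C * P ^ 3 := by
            gcongr
            rw [hC]; linarith
    have b3 : |((q * q' * (h - h') : ℤ) : ℝ)| ≤ C * P ^ 3 := by
      push_cast
      rw [abs_mul, abs_mul, abs_of_nonneg (Nat.cast_nonneg q), abs_of_nonneg (Nat.cast_nonneg q')]
      calc (q : ℝ) * q' * |(h : ℝ) - h'| ≤ P * P * (2 * P) := by
            have : |(h : ℝ) - h'| ≤ 2 * P := by
              have := abs_sub (h : ℝ) h'
              linarith
            gcongr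
        _ = 2 * P ^ 3 := by ring
        _ ≤ C * P ^ 3 := by gcongr
    have key := (hdio _ _ _ _ hne' b1 b2 b3).trans hform
    rw [div_le_iff₀ (by positivity)] at key
    have k2 : κ ≤ C ^ 4 * (a + a') * (P ^ 14 * D) := by
      calc κ ≤ (a + a') * (P ^ 2 * D) * (C * P ^ 3) ^ 4 := key
        _ = C ^ 4 * (a + a') * (P ^ 14 * D) := by ring
    have k3 : κ ≤ C ^ 4 * (a + a') * x⁻¹ := k2.trans (by gcongr)
    rw [div_lt_iff₀ hκ] at hx1
    have k4 : κ * x ≤ C ^ 4 * (a + a') := by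
      calc κ * x ≤ C ^ 4 * (a + a') * x⁻¹ * x := by gcongr
        _ = C ^ 4 * (a + a') := by field_simp
    linarith
  obtain ⟨z1, z2, z3⟩ := hzero
  have ha1 : a₁ = 0 := by
    have : (q' * a₁ : ℤ) = 0 := by linarith
    rcases mul_eq_zero.1 this with h0 | h0
    · exfalso; omega
    · exact h0
  rw [ha1] at e1
  have hbh : |β + h| * a ≤ P * D := by
    have : |(q : ℝ) * (a * (β + h)) - ((0 : ℤ) : ℝ)| = q * (|β + h| * a) := by
      rw [Int.cast_zero, sub_zero, abs_mul, abs_mul, abs_of_pos ha,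
        abs_of_nonneg (Nat.cast_nonneg q)]
      ring
    rw [this] at e1
    have h1 : |β + h| * a ≤ q * (|β + h| * a) := le_mul_of_one_le_left (by positivity) hqr
    linarith
  by_cases hh0 : h = 0
  · rw [hh0] at hbh
    simpa using hbh
  · exfalso
    have h1 : (1 : ℝ) ≤ |(h : ℝ)| := by
      exact_mod_cast Int.one_le_abs hh0
    have h2 : 1 / 2 ≤ |β + h| := by
      have := abs_sub_abs_le_abs_sub (h : ℝ) (-β)
      rw [abs_neg, sub_neg_eq_add, add_comm (h : ℝ) β] at this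
      linarith
    rw [div_lt_iff₀ ha] at hx2
    have h3 : 1 / 2 * a ≤ x⁻¹ := by
      calc 1 / 2 * a ≤ |β + h| * a := by gcongr
        _ ≤ x⁻¹ := hbh.trans hPD1
    have h4 : 1 / 2 * a * x ≤ 1 := by
      calc 1 / 2 * a * x ≤ x⁻¹ * x := by gcongr
        _ = 1 := by field_simp
    linarith

theorem dexcl (h : S_DMAJ) : S_DEXCL := by
  intro k a a' C0 δ hk ha ha' hdio hδ
  obtain ⟨κ, hκ, hdio⟩ := hdio
  obtain ⟨m₁, hm₁, H1⟩ := h k a C0 hk ha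
  obtain ⟨m₂, hm₂, H2⟩ := h k a' C0 hk ha'
  set m : ℝ := max m₁ m₂ with hm
  have hm0 : 0 < m := lt_of_lt_of_le hm₁ (le_max_left _ _)
  set σ : ℝ := min 1 (min (δ / (4 * m)) (1 / (16 * m))) with hσ
  have hσ0 : 0 < σ := by
    rw [hσ]
    refine lt_min one_pos (lt_min (by positivity) (by positivity))
  have hσ1 : σ ≤ 1 := min_le_left _ _
  have hσδ : m * σ ≤ δ / 4 := by
    have : σ ≤ δ / (4 * m) := (min_le_right _ _).trans (min_le_left _ _)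
    calc m * σ ≤ m * (δ / (4 * m)) := by gcongr
      _ = δ / 4 := by field_simp
  have hσm : m * σ ≤ 1 / 16 := by
    have : σ ≤ 1 / (16 * m) := (min_le_right _ _).trans (min_le_right _ _)
    calc m * σ ≤ m * (1 / (16 * m)) := by gcongr
      _ = 1 / 16 := by field_simp
  have hmσ0 : 0 < m * σ := by positivity
  obtain ⟨N1, H1⟩ := H1 σ hσ0 hσ1
  obtain ⟨N2, H2⟩ := H2 σ hσ0 hσ1
  have hev : ∀ᶠ X : ℕ in atTop, 1 ≤ X ∧ N1 ≤ X ∧ N2 ≤ X ∧
      (2 * a + 2 * a' + 2) ^ 4 * (a + a') / κ < (X : ℝ) ∧ 2 / a < (X : ℝ) ∧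
      1 / a < (X : ℝ) ^ (δ / 2) := by
    have t1 : Tendsto (fun X : ℕ => (X : ℝ)) atTop atTop := tendsto_natCast_atTop_atTop
    have t2 : Tendsto (fun X : ℕ => (X : ℝ) ^ (δ / 2)) atTop atTop :=
      (tendsto_rpow_atTop (by positivity)).comp t1
    filter_upwards [eventually_ge_atTop 1, eventually_ge_atTop N1, eventually_ge_atTop N2,
      t1.eventually_gt_atTop ((2 * a + 2 * a' + 2) ^ 4 * (a + a') / κ),
      t1.eventually_gt_atTop (2 / a), t2.eventually_gt_atTop (1 / a)] with X h1 h2 h3 h4 h5 h6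
    exact ⟨h1, h2, h3, h4, h5, h6⟩
  obtain ⟨X0, hX0⟩ := eventually_atTop.1 hev
  refine ⟨σ, hσ0, hσ1, X0, ?_⟩
  intro X A L A' L' hX hA hA' β hβ1 hβ2
  obtain ⟨g1, g2, g3, g4, g5, g6⟩ := hX0 X hX
  by_contra hcon
  push Not at hcon
  obtain ⟨c1, c2⟩ := hcon
  obtain ⟨b, a₁, q, hq, hqP, hbP, e1⟩ := H1 X A L g2 hA β hβ2 c1
  obtain ⟨b', a₁', q', hq', hqP', hbP', e2⟩ := H2 X A' L' g3 hA' β hβ2 c2
  have hx1 : (1 : ℝ) ≤ X := by exact_mod_cast g1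
  have hx0 : (0 : ℝ) < X := by linarith
  have hkr : (2 : ℝ) ≤ k := by exact_mod_cast hk
  have mono1 : (X : ℝ) ^ (m₁ * σ) ≤ (X : ℝ) ^ (m * σ) :=
    Real.rpow_le_rpow_of_exponent_le hx1 (by gcongr; exact le_max_left _ _)
  have mono2 : (X : ℝ) ^ (m₂ * σ) ≤ (X : ℝ) ^ (m * σ) :=
    Real.rpow_le_rpow_of_exponent_le hx1 (by gcongr; exact le_max_right _ _)
  have spl : (X : ℝ) ^ (m * σ) * (X : ℝ) ^ (-(k : ℝ)) = (X : ℝ) ^ (m * σ - k) := by
    rw [← Real.rpow_add hx0]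
    rfl
  have mono3 : (X : ℝ) ^ (m₁ * σ - k) ≤ (X : ℝ) ^ (m * σ) * (X : ℝ) ^ (-(k : ℝ)) := by
    rw [spl]
    refine Real.rpow_le_rpow_of_exponent_le hx1 ?_
    have : m₁ * σ ≤ m * σ := by gcongr; exact le_max_left _ _
    linarith
  have mono4 : (X : ℝ) ^ (m₂ * σ - k) ≤ (X : ℝ) ^ (m * σ) * (X : ℝ) ^ (-(k : ℝ)) := by
    rw [spl]
    refine Real.rpow_le_rpow_of_exponent_le hx1 ?_
    have : m₂ * σ ≤ m * σ := by gcongr; exact le_max_right _ _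
    linarith
  have hfin := core (x := (X : ℝ)) (P := (X : ℝ) ^ (m * σ)) (D := (X : ℝ) ^ (-(k : ℝ))) ha ha' hκ
    hx1 hdio (Real.one_le_rpow hx1 hmσ0.le) (by positivity) (by
      rw [← Real.rpow_natCast, ← Real.rpow_mul hx0.le, ← Real.rpow_add hx0, ← Real.rpow_neg_one]
      refine Real.rpow_le_rpow_of_exponent_le hx1 ?_
      push_cast
      linarith) g4 g5 hβ2 hq hq' (hqP.trans mono1) (hqP'.trans mono2) (hbP.trans mono1)
    (hbP'.trans mono2) (e1.trans mono3) (e2.trans mono4)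
  rw [spl] at hfin
  have h1 : (X : ℝ) ^ (-(k : ℝ) + δ) * a ≤ (X : ℝ) ^ (m * σ - k) :=
    le_trans (by gcongr) hfin
  have h2 : (X : ℝ) ^ (m * σ - k) ≤ (X : ℝ) ^ (-(k : ℝ) + δ / 2) := by
    refine Real.rpow_le_rpow_of_exponent_le hx1 ?_
    linarith
  have h3 : (X : ℝ) ^ (-(k : ℝ) + δ) = (X : ℝ) ^ (-(k : ℝ) + δ / 2) * (X : ℝ) ^ (δ / 2) := by
    rw [← Real.rpow_add hx0]
    congr 1
    ring
  rw [h3] at h1
  have h4 : 0 < (X : ℝ) ^ (-(k : ℝ) + δ / 2) := by positivity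
  have h5 : (X : ℝ) ^ (-(k : ℝ) + δ / 2) * ((X : ℝ) ^ (δ / 2) * a) ≤
      (X : ℝ) ^ (-(k : ℝ) + δ / 2) * 1 := by
    rw [mul_one, ← mul_assoc]
    exact h1.trans h2
  have h6 := le_of_mul_le_mul_left h5 h4
  rw [div_lt_iff₀ ha] at g6
  linarith

end Pool.Agent.N701.PD
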