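import Pool.Agent.N585.PA.Defs

set_option autoImplicit false

/-!
# Project PA (helper585), PA/4 (helper701): a halting computation gives a finite model
-/

namespace Pool.Agent.N701.PA4

open Pool.Agent.Helper948.Erode Pool.Agent.N585.PA

/-! ## Semantics of the abbreviations -/

section sem
variable {A W P : Type} (M : Model A W) (a b : A) (e : Lt P → ℕ)

theorem sat_tt (S : Set W) (w : W) : sat M tt S w := by
  show ¬ (sat M (.atom 0) S w ∧ ¬ sat M (.atom 0) S w)
  tauto

theorem sat_imp (φ ψ : Form A) (S : Set W) (w : W) :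
    sat M (imp φ ψ) S w ↔ (sat M φ S w → sat M ψ S w) := by
  show ¬ (sat M φ S w ∧ ¬ sat M ψ S w) ↔ _
  tauto

theorem sat_conj (l : List (Form A)) (S : Set W) (w : W) :
    sat M (conj l) S w ↔ ∀ φ ∈ l, sat M φ S w := by
  induction l with
  | nil =>
    constructor
    · intro _ φ h
      simp at h
    · intro _
      exact sat_tt M S w
  | cons φ l ih =>
    show sat M φ S w ∧ sat M (conj l) S w ↔ _
    rw [ih, List.forall_mem_cons]

theorem sat_box (h : StmPeel) (χ : Form A) (S : Set W) (w : W)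
    (hS : ∀ l, ¬ M.V (e .vx) l → l ∈ S) :
    sat M (box a b e χ) S w ↔ ∀ v, Ed M a b e w v → v ∈ S → sat M χ S v := by
  show ¬ sat M (dia a b e (.neg χ)) S w ↔ _
  rw [(h A W P M a b e).1 _ S w hS]
  constructor
  · intro h1 v hv hvS
    by_contra hc
    exact h1 ⟨v, hv, hvS, hc⟩
  · rintro h1 ⟨v, hv, hvS, hc⟩
    exact hc (h1 v hv hvS)

end sem

/-! ## The model -/

/-- the vertices -/
abbrev X (T B : ℕ) : Type := Fin (T + 1) × Option ((Bool × Bool) × Fin B)

/-- the edges -/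
def Eg {T B : ℕ} : X T B → X T B → Prop
  | (t, none), (t', none) => (t' : ℕ) = t + 1
  | (t, none), (t', some (_, i)) => t' = t ∧ (i : ℕ) = 0
  | (t, some (j, i)), (t', some (j', i')) => t' = t ∧ j' = j ∧ (i' : ℕ) = i + 1
  | (_, some _), (_, none) => False

/-- the worlds -/
abbrev Wd (T B : ℕ) : Type := X T B ⊕ {p : X T B × X T B // Eg p.1 p.2}

def src {T B : ℕ} : Wd T B → X T B := Sum.elim id fun p => p.1.1
def tgt {T B : ℕ} : Wd T B → X T B := Sum.elim id fun p => p.1.2

/-- the labels -/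
def Lb {P : Type} {T B : ℕ} (x : ℕ → Option P × (Bool × Bool → ℤ)) : Lt P → Wd T B → Prop
  | .vx, w => ∃ u, w = .inl u
  | .cfg, w => ∃ t, w = .inl (t, none)
  | .st q, w => ∃ t : Fin (T + 1), w = .inl (t, none) ∧ q = (x t).1
  | .ch j, w => ∃ (t : Fin (T + 1)) (i : Fin B), w = .inl (t, some (j, i)) ∧ ((i : ℕ) : ℤ) < (x t).2 j

open Classical in
/-- the model -/
noncomputable def Md {A P : Type} (a b : A) (e : Lt P → ℕ) (T B : ℕ)
    (x : ℕ → Option P × (Bool × Bool → ℤ)) : Model A (Wd T B) where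
  r c := if c = a then Setoid.ker src else if c = b then Setoid.ker tgt else ⊥
  V n w := ∃ l, e l = n ∧ Lb x l w

section model
variable {A P : Type} {a b : A} {e : Lt P → ℕ} {T B : ℕ}
  {x : ℕ → Option P × (Bool × Bool → ℤ)}

theorem md_V (he : Function.Injective e) (l : Lt P) (w : Wd T B) :
    (Md a b e T B x).V (e l) w ↔ Lb x l w := by
  constructor
  · rintro ⟨l', h1, h2⟩
    rw [← he h1]
    exact h2
  · intro h
    exact ⟨l, rfl, h⟩

theorem md_a (u v : Wd T B) : (Md a b e T B x).r a u v ↔ src u = src v := by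
  have h : (Md a b e T B x).r a = Setoid.ker src := if_pos rfl
  rw [h]
  exact Iff.rfl

theorem md_b (hab : a ≠ b) (u v : Wd T B) : (Md a b e T B x).r b u v ↔ tgt u = tgt v := by
  have h : (Md a b e T B x).r b = Setoid.ker tgt := (if_neg hab.symm).trans (if_pos rfl)
  rw [h]
  exact Iff.rfl

theorem md_Ed (hab : a ≠ b) (he : Function.Injective e) (u : X T B) (w : Wd T B) :
    Ed (Md a b e T B x) a b e (.inl u) w ↔ ∃ v, w = .inl v ∧ Eg u v := by
  constructor
  · rintro ⟨l, h1, h2, h3, h4⟩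
    rw [md_V he] at h2 h4
    rw [md_a] at h1
    rw [md_b hab] at h3
    obtain ⟨v, rfl⟩ := h4
    rcases l with l | ⟨p, hp⟩
    · exact absurd ⟨l, rfl⟩ h2
    · refine ⟨v, rfl, ?_⟩
      have e1 : u = p.1 := h1
      have e2 : p.2 = v := h3
      rw [e1, ← e2]
      exact hp
  · rintro ⟨v, rfl, h⟩
    refine ⟨.inr ⟨(u, v), h⟩, ?_, ?_, ?_, ?_⟩
    · rw [md_a]
      rfl
    · rw [md_V he]
      rintro ⟨w, hw⟩
      exact Sum.inr_ne_inl hw
    · rw [md_b hab]
      rfl
    · rw [md_V he]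
      exact ⟨v, rfl⟩

theorem ch_iff (t : Fin (T + 1)) (j j' : Bool × Bool) (i : Fin B) :
    Lb x (.ch j) (.inl (t, some (j', i)) : Wd T B) ↔ j' = j ∧ ((i : ℕ) : ℤ) < (x t).2 j := by
  constructor
  · rintro ⟨t', i', h1, h2⟩
    have h3 := Sum.inl.inj h1
    have h4 := congrArg Prod.fst h3
    have h5 := Option.some.inj (congrArg Prod.snd h3)
    have h6 := congrArg Prod.fst h5
    have h7 := congrArg Prod.snd h5
    dsimp only at h4 h6 h7
    subst h4 h6 h7
    exact ⟨rfl, h2⟩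
  · rintro ⟨rfl, h⟩
    exact ⟨t, i, rfl, h⟩

theorem ch_none (t : Fin (T + 1)) (j : Bool × Bool) :
    ¬ Lb x (.ch j) (.inl (t, none) : Wd T B) := by
  rintro ⟨t', i', h1, -⟩
  exact Option.some_ne_none _ (congrArg Prod.snd (Sum.inl.inj h1)).symm

theorem cfg_none (t : Fin (T + 1)) : Lb x .cfg (.inl (t, none) : Wd T B) := ⟨t, rfl⟩

theorem st_iff (t : Fin (T + 1)) (q : Option P) :
    Lb x (.st q) (.inl (t, none) : Wd T B) ↔ q = (x t).1 := by
  constructor
  · rintro ⟨t', h1, h2⟩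
    have h4 := congrArg Prod.fst (Sum.inl.inj h1)
    dsimp only at h4
    rw [h4]
    exact h2
  · intro h
    exact ⟨t, rfl, h⟩

theorem Pt_ch (hab : a ≠ b) (he : Function.Injective e) (hB : ∀ t ≤ T, ∀ j, (x t).2 j ≤ B)
    (j : Bool × Bool) (m : ℕ) : ∀ (t : Fin (T + 1)) (i : Fin B),
    Pt (Md a b e T B x) a b e (.ch j) m (.inl (t, some (j, i))) ↔
      ((i : ℕ) : ℤ) + m < (x t).2 j := by
  induction m with
  | zero =>
    intro t i
    show (Md a b e T B x).V (e (.ch j)) _ ↔ _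
    rw [md_V he, ch_iff, Nat.cast_zero, add_zero]
    exact ⟨fun h => h.2, fun h => ⟨rfl, h⟩⟩
  | succ m ih =>
    intro t i
    show (Md a b e T B x).V (e (.ch j)) _ ∧ (∃ v, Ed _ a b e _ v ∧ Pt _ a b e (.ch j) m v) ↔ _
    rw [md_V he, ch_iff]
    constructor
    · rintro ⟨h1, v, hv, h2⟩
      obtain ⟨v, rfl, h3⟩ := (md_Ed hab he _ _).1 hv
      obtain ⟨t', y⟩ := v
      rcases y with _ | ⟨j', i'⟩
      · exact absurd h3 (fun h => h)
      · obtain ⟨rfl, rfl, h4⟩ := h3
        rw [ih] at h2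
        rw [h4] at h2
        push_cast at h2 ⊢
        linarith
    · intro h1
      have h2 : ((i : ℕ) : ℤ) < (x t).2 j := by
        push_cast at h1
        linarith [Int.natCast_nonneg m]
      refine ⟨⟨rfl, h2⟩, ?_⟩
      have h3 := hB t (Nat.lt_succ_iff.1 t.2) j
      have h4 : (i : ℕ) + 1 < B := by
        push_cast at h1
        have : ((i : ℕ) : ℤ) + 1 < B := by linarith [Int.natCast_nonneg m]
        exact_mod_cast this
      refine ⟨.inl (t, some (j, ⟨i + 1, h4⟩)), (md_Ed hab he _ _).2 ⟨_, rfl, rfl, rfl, rfl⟩, ?_⟩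
      rw [ih]
      push_cast at h1 ⊢
      linarith

/-- the successors of a configuration -/
theorem val_iff (hab : a ≠ b) (he : Function.Injective e) (hB : ∀ t ≤ T, ∀ j, (x t).2 j ≤ B)
    (j : Bool × Bool) (m : ℕ) (t : Fin (T + 1)) :
    (∃ v, Ed (Md a b e T B x) a b e (.inl (t, none)) v ∧
      Pt (Md a b e T B x) a b e (.ch j) m v) ↔ (m : ℤ) < (x t).2 j := by
  constructor
  · rintro ⟨v, hv, h2⟩
    obtain ⟨v, rfl, h3⟩ := (md_Ed hab he _ _).1 hv
    obtain ⟨t', y⟩ := v
    have h5 : (Md a b e T B x).V (e (.ch j)) (.inl (t', y)) := by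
      cases m with
      | zero => exact h2
      | succ m => exact h2.1
    rw [md_V he] at h5
    rcases y with _ | ⟨j', i'⟩
    · exact absurd h5 (ch_none _ _)
    · obtain ⟨rfl, h4⟩ := h3
      obtain ⟨rfl, -⟩ := (ch_iff _ _ _ _).1 h5
      rw [Pt_ch hab he hB, h4] at h2
      simpa using h2
  · intro h
    have h3 := hB t (Nat.lt_succ_iff.1 t.2) j
    have h4 : 0 < B := by
      have : (0 : ℤ) < B := by linarith [Int.natCast_nonneg m]
      exact_mod_cast this
    refine ⟨.inl (t, some (j, ⟨0, h4⟩)), (md_Ed hab he _ _).2 ⟨_, rfl, rfl, rfl⟩, ?_⟩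
    rw [Pt_ch hab he hB]
    simpa using h

theorem next_cfg (hab : a ≠ b) (he : Function.Injective e) (t : Fin (T + 1)) (w : Wd T B) :
    (Ed (Md a b e T B x) a b e (.inl (t, none)) w ∧ (Md a b e T B x).V (e .cfg) w) ↔
      ∃ h : (t : ℕ) + 1 < T + 1, w = .inl (⟨t + 1, h⟩, none) := by
  constructor
  · rintro ⟨hv, h2⟩
    obtain ⟨v, rfl, h3⟩ := (md_Ed hab he _ _).1 hv
    rw [md_V he] at h2
    obtain ⟨t', h4⟩ := h2
    have h5 := Sum.inl.inj h4
    subst h5
    have h6 : (t' : ℕ) = t + 1 := h3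
    refine ⟨by rw [← h6]; exact t'.2, ?_⟩
    congr 2
    exact Fin.ext h6
  · rintro ⟨h, rfl⟩
    exact ⟨(md_Ed hab he _ _).2 ⟨_, rfl, rfl⟩, (md_V he _ _).2 (cfg_none _)⟩

theorem Pt_cfg (hab : a ≠ b) (he : Function.Injective e) (m : ℕ) : ∀ t : Fin (T + 1),
    Pt (Md a b e T B x) a b e .cfg m (.inl (t, none)) ↔ (t : ℕ) + m ≤ T := by
  induction m with
  | zero =>
    intro t
    show (Md a b e T B x).V (e .cfg) _ ↔ _
    rw [md_V he]
    exact ⟨fun _ => Nat.lt_succ_iff.1 t.2, fun _ => cfg_none _⟩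
  | succ m ih =>
    intro t
    show (Md a b e T B x).V (e .cfg) _ ∧ (∃ v, Ed _ a b e _ v ∧ Pt _ a b e .cfg m v) ↔ _
    rw [md_V he]
    constructor
    · rintro ⟨-, v, hv, h2⟩
      have h5 : (Md a b e T B x).V (e .cfg) v := by
        cases m with
        | zero => exact h2
        | succ m => exact h2.1
      obtain ⟨h6, rfl⟩ := (next_cfg hab he t v).1 ⟨hv, h5⟩
      rw [ih] at h2
      dsimp only at h2
      omega
    · intro h
      have h6 : (t : ℕ) + 1 < T + 1 := by omega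
      refine ⟨cfg_none _, .inl (⟨t + 1, h6⟩, none), ((next_cfg hab he t _).2 ⟨h6, rfl⟩).1, ?_⟩
      rw [ih]
      dsimp only
      omega

end model

/-- (PA/4) -/
theorem stmModel (h : StmPeel) : StmModel := by
  intro A P _ a b e D Ps p0 N hab he hH
  obtain ⟨T, hT⟩ := hH
  obtain ⟨x, hx⟩ : ∃ x : ℕ → Option P × (Bool × Bool → ℤ),
    x = fun t => D.st^[t] (some p0, v4 N 0 0 0) := ⟨_, rfl⟩
  have hx0 : x 0 = (some p0, v4 N 0 0 0) := by rw [hx]; rfl
  have hxs : ∀ t, x (t + 1) = D.st (x t) := by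
    intro t
    rw [hx]
    exact Function.iterate_succ_apply' _ _ _
  have hxT : (x T).1 = none := by rw [hx]; exact hT
  clear hx hT
  have hnn : ∀ t j, 0 ≤ (x t).2 j := by
    intro t
    induction t with
    | zero =>
      rw [hx0]
      rintro ⟨j1, j2⟩
      cases j1 <;> cases j2 <;> simp [v4]
    | succ t ih =>
      rw [hxs]
      exact D.st_nonneg _ ih
  obtain ⟨B, hB⟩ : ∃ B : ℕ, ∀ t ≤ T, ∀ j, (x t).2 j ≤ B := by
    refine ⟨(Finset.range (T + 1) ×ˢ (Finset.univ : Finset (Bool × Bool))).sup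
      fun p => ((x p.1).2 p.2).toNat, fun t ht j => ?_⟩
    have h1 : ((x t).2 j).toNat ≤ (Finset.range (T + 1) ×ˢ
        (Finset.univ : Finset (Bool × Bool))).sup fun p => ((x p.1).2 p.2).toNat :=
      Finset.le_sup (f := fun p : ℕ × (Bool × Bool) => ((x p.1).2 p.2).toNat)
        (b := (t, j)) (Finset.mem_product.2 ⟨Finset.mem_range.2 (by omega), Finset.mem_univ _⟩)
    have h2 := Int.self_le_toNat ((x t).2 j)
    have h3 : ((((x t).2 j).toNat : ℕ) : ℤ) ≤ (((Finset.range (T + 1) ×ˢ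
        (Finset.univ : Finset (Bool × Bool))).sup fun p => ((x p.1).2 p.2).toNat : ℕ) : ℤ) := by
      exact_mod_cast h1
    exact h2.trans h3
  refine ⟨Wd T B, inferInstance, Md a b e T B x, .inl (⟨0, Nat.succ_pos T⟩, none), ?_⟩
  obtain ⟨M, hM⟩ : ∃ M, M = Md a b e T B x := ⟨_, rfl⟩
  rw [← hM]
  have hV : ∀ (l : Lt P) (w : Wd T B), M.V (e l) w ↔ Lb x l w := by
    rw [hM]
    exact md_V he
  have hlink : ∀ (l : Lt P) (n : ℕ) (w : Wd T B), ¬ M.V (e .vx) w → w ∈ Sn M a b e l n :=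
    fun l n w hw => ((h A _ P M a b e).2.1 l n w).2 fun h1 => absurd h1 hw
  have ge_n : ∀ (j : Bool × Bool) (n m : ℕ) (t : Fin (T + 1)),
      sat M (ge a b e j (m + 1)) (Sn M a b e (.ch j) n) (.inl (t, none)) ↔
        ((n + m : ℕ) : ℤ) < (x t).2 j := by
    intro j n m t
    rw [(h A _ P M a b e).2.2, hM]
    exact val_iff hab he hB j (n + m) t
  have ge_u : ∀ (j : Bool × Bool) (m : ℕ) (t : Fin (T + 1)),
      sat M (ge a b e j m) Set.univ (.inl (t, none)) ↔ (m : ℤ) ≤ (x t).2 j := by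
    intro j m t
    cases m with
    | zero => exact ⟨fun _ => by rw [Nat.cast_zero]; exact hnn _ _, fun _ => sat_tt M _ _⟩
    | succ m =>
      have h1 := ge_n j 0 m t
      have h2 : Sn M a b e (.ch j) 0 = Set.univ := rfl
      rw [h2, Nat.zero_add] at h1
      rw [h1]
      push_cast
      omega
  have hnext : ∀ (t : Fin (T + 1)) (w : Wd T B),
      (Ed M a b e (.inl (t, none)) w ∧ M.V (e .cfg) w) ↔
        ∃ h : (t : ℕ) + 1 < T + 1, w = .inl (⟨t + 1, h⟩, none) := by
    rw [hM]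
    exact next_cfg hab he
  have dia_cfg : ∀ (S : Set (Wd T B)) (t : Fin (T + 1)), (∀ l, ¬ M.V (e .vx) l → l ∈ S) →
      (sat M (dia a b e (at' e .cfg)) S (.inl (t, none)) ↔
        ∃ h : (t : ℕ) + 1 < T + 1, (.inl (⟨t + 1, h⟩, none) : Wd T B) ∈ S) := by
    intro S t hS
    rw [(h A _ P M a b e).1 _ S _ hS]
    constructor
    · rintro ⟨v, h1, h2, h3⟩
      obtain ⟨h4, rfl⟩ := (hnext t v).1 ⟨h1, h3⟩
      exact ⟨h4, h2⟩
    · rintro ⟨h4, h5⟩
      obtain ⟨h6, h7⟩ := (hnext t _).2 ⟨h4, rfl⟩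
      exact ⟨_, h6, h5, h7⟩
  have box_cfg : ∀ (S : Set (Wd T B)) (t : Fin (T + 1)) (χ : Form A),
      (∀ l, ¬ M.V (e .vx) l → l ∈ S) →
      (∀ h : (t : ℕ) + 1 < T + 1, sat M χ S (.inl (⟨t + 1, h⟩, none))) →
      sat M (box a b e (imp (at' e .cfg) χ)) S (.inl (t, none)) := by
    intro S t χ hS h1
    rw [sat_box M a b e h _ S _ hS]
    intro v hv hvS
    rw [sat_imp]
    intro h2
    obtain ⟨h4, rfl⟩ := (hnext t v).1 ⟨hv, h2⟩
    exact h1 h4
  -- the change of a register
  have hchg : ∀ (t : Fin (T + 1)) (d : ℤ) (j : Bool × Bool),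
      (∀ h : (t : ℕ) + 1 < T + 1, (x (t + 1)).2 j = (x t).2 j + d) →
      sat M (chg a b e d j) Set.univ (.inl (t, none)) := by
    intro t d j hd
    refine ⟨box_cfg _ _ _ (fun _ _ => trivial) fun h1 => ?_, fun n _ => ?_⟩
    · rw [ge_u]
      have h2 := hd h1
      have h3 := hnn t j
      have h4 := hnn (t + 1) j
      show ((d.toNat : ℕ) : ℤ) ≤ (x (t + 1)).2 j
      omega
    · have h0 : (step (sat M (peel a b e (.ch j))))^[n] Set.univ = Sn M a b e (.ch j) n := rfl
      rw [h0]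
      refine ⟨?_, ?_⟩
      · rw [sat_imp, ge_n]
        intro h1
        refine box_cfg _ _ _ (hlink _ _) fun h2 => ?_
        rw [ge_n]
        have h3 := hd h2
        show ((n + d.toNat : ℕ) : ℤ) < (x (t + 1)).2 j
        push_cast at h1 ⊢
        omega
      · rw [sat_imp]
        intro h1
        have h1' : ¬ ((n + (-d).toNat : ℕ) : ℤ) < (x t).2 j := fun h5 => h1 ((ge_n _ _ _ _).2 h5)
        refine box_cfg _ _ _ (hlink _ _) fun h2 => ?_
        intro h6
        rw [ge_n] at h6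
        have h3 := hd h2
        have h7 : ((n + d.toNat : ℕ) : ℤ) < (x (t + 1)).2 j := h6
        push_cast at h1' h7
        omega
  show sat M (conj _) _ _
  rw [sat_conj]
  intro φ hφ
  simp only [List.mem_cons, List.not_mem_nil, or_false] at hφ
  rcases hφ with rfl | rfl | rfl | rfl | rfl | rfl
  · exact (hV _ _).2 ⟨_, rfl⟩
  · exact (hV _ _).2 (cfg_none _)
  · refine (hV _ _).2 ((st_iff _ _).2 ?_)
    show some p0 = (x 0).1
    rw [hx0]
  · show sat M (conj _) _ _
    rw [sat_conj]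
    intro φ hφ
    simp only [List.mem_cons, List.not_mem_nil, or_false] at hφ
    rcases hφ with rfl | rfl | rfl | rfl
    · refine ⟨?_, ?_⟩
      · rw [ge_u]
        show (N : ℤ) ≤ (x 0).2 _
        rw [hx0]
        exact le_rfl
      · intro h1
        rw [ge_u] at h1
        have h2 : ((N + 1 : ℕ) : ℤ) ≤ (x 0).2 (false, true) := h1
        rw [hx0] at h2
        have h3 : ((N + 1 : ℕ) : ℤ) ≤ N := h2
        push_cast at h3
        omega
    · intro h1
      rw [ge_u] at h1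
      have h2 : ((1 : ℕ) : ℤ) ≤ (x 0).2 (false, false) := h1
      rw [hx0] at h2
      have h3 : ((1 : ℕ) : ℤ) ≤ 0 := h2
      omega
    · intro h1
      rw [ge_u] at h1
      have h2 : ((1 : ℕ) : ℤ) ≤ (x 0).2 (true, false) := h1
      rw [hx0] at h2
      have h3 : ((1 : ℕ) : ℤ) ≤ 0 := h2
      omega
    · intro h1
      rw [ge_u] at h1
      have h2 : ((1 : ℕ) : ℤ) ≤ (x 0).2 (true, true) := h1
      rw [hx0] at h2
      have h3 : ((1 : ℕ) : ℤ) ≤ 0 := h2
      omega
  · intro h1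
    have hPc := Pt_cfg (x := x) (T := T) (B := B) hab he T
    rw [← hM] at hPc
    have hmem : (.inl (⟨0, Nat.succ_pos T⟩, none) : Wd T B) ∈ Sn M a b e .cfg T := by
      rw [(h A _ P M a b e).2.1]
      intro _ _
      rw [hPc]
      show 0 + T ≤ T
      omega
    have h2 : sat M (dia a b e (at' e .cfg)) (Sn M a b e .cfg T)
      (.inl (⟨0, Nat.succ_pos T⟩, none)) := h1 T hmem
    rw [dia_cfg _ _ (hlink _ _)] at h2
    obtain ⟨h3, h4⟩ := h2
    rw [(h A _ P M a b e).2.1] at h4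
    have h5 := h4 ((hV _ _).2 ⟨_, rfl⟩) ((hV _ _).2 (cfg_none _))
    rw [hPc] at h5
    have h6 : 0 + 1 + T ≤ T := h5
    omega
  · intro v _
    rw [sat_imp]
    rintro ⟨-, h2⟩
    obtain ⟨t, rfl⟩ := (hV _ _).1 h2
    refine ⟨?_, ?_⟩
    · show sat M (conj _) _ _
      rw [sat_conj]
      intro φ hφ
      rw [List.mem_map] at hφ
      obtain ⟨j, -, rfl⟩ := hφ
      intro h3
      exact ch_none t j ((hV _ _).1 h3)
    · rw [sat_conj]
      intro φ hφ
      rw [List.mem_map] at hφ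
      obtain ⟨p, -, rfl⟩ := hφ
      show sat M (imp _ _) _ _
      rw [sat_imp]
      intro h3
      have hp : some p = (x t).1 := (st_iff _ _).1 ((hV _ _).1 h3)
      have htT : (t : ℕ) ≠ T := by
        intro h4
        rw [h4, hxT] at hp
        exact Option.some_ne_none _ hp
      have ht1 : (t : ℕ) + 1 < T + 1 := by
        have := t.2
        omega
      have hstep : x (t + 1) = (D.nxt p (D.br p (x t).2), (x t).2 + D.vec p (D.br p (x t).2)) := by
        rw [hxs]
        have h4 : x t = (some p, (x t).2) := Prod.ext hp.symm rfl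
        rw [h4]
        rfl
      have hbr : ∀ β : Bool, D.br p (x t).2 = β →
          sat M (brf a b e D p β) Set.univ (.inl (t, none)) := by
        intro β hβ
        rw [hβ] at hstep
        refine ⟨box_cfg _ _ _ (fun _ _ => trivial) fun h4 => ?_, ?_⟩
        · refine (hV _ _).2 ((st_iff _ _).2 ?_)
          show D.nxt p β = (x (t + 1)).1
          rw [hstep]
        · rw [sat_conj]
          intro φ hφ
          rw [List.mem_map] at hφ
          obtain ⟨j, -, rfl⟩ := hφ
          refine hchg t _ j fun _ => ?_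
          rw [hstep]
          rfl
      refine ⟨(dia_cfg _ _ fun _ _ => trivial).2 ⟨ht1, trivial⟩, ?_, ?_⟩
      · rw [sat_imp, ge_u]
        intro h4
        refine hbr true ?_
        unfold DM.br
        rw [decide_eq_true_eq]
        push_cast at h4
        omega
      · rw [sat_imp]
        intro h4
        refine hbr false ?_
        unfold DM.br
        rw [decide_eq_false_iff_not]
        intro h5
        apply h4
        rw [ge_u]
        push_cast
        omega

end Pool.Agent.N701.PA4
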